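import Mathlib

set_option autoImplicit false

/-! # Balanced patterns: definitions -/

namespace Pool.Agent.BalPat

open Finset

/-- The word formed by two sets `A`, `B` (`true` stands for `+`, `false` for `-`): the elements
`j₁ < ⋯ < j_t` of the symmetric difference are listed increasingly, and `j_i` is replaced by
`+` if `j_i ∈ A` (i.e. `j_i ∈ A \ B`) and by `-` otherwise. -/
def formed {n : ℕ} (A B : Finset (Fin n)) : List Bool :=
  ((symmDiff A B).sort (· ≤ ·)).map fun j => decide (j ∈ A)

/-- A family is `P`-free if no two members form the pattern `P`. -/
def PatternFree {n : ℕ} (F : Finset (Finset (Fin n))) (P : List Bool) : Prop :=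
  ∀ A ∈ F, ∀ B ∈ F, formed A B ≠ P

/-- A balanced pattern: equally many plus and minus signs, at least one each. -/
def Balanced (P : List Bool) : Prop := 1 ≤ P.count true ∧ P.count true = P.count false

/-- `f(n, k, P)`: the largest size of a `P`-free family of `k`-subsets of an `n`-set. -/
noncomputable def maxFree (n k : ℕ) (P : List Bool) : ℕ :=
  sSup {s | ∃ F : Finset (Finset (Fin n)), (∀ A ∈ F, A.card = k) ∧ PatternFree F P ∧ F.card = s}

/-- `δ(n, k, P) = f(n, k, P) / binom(n, k)`. -/
noncomputable def density (n k : ℕ) (P : List Bool) : ℝ :=
  (maxFree n k P : ℝ) / (n.choose k : ℝ)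

/-- The word of directions in which `y` has to be changed to get `y'`: `true` for up and `false`
for down, unchanged coordinates are skipped. -/
def hopWord {L : ℕ} (y y' : Fin L → ℕ) : List Bool :=
  (List.finRange L).filterMap fun b =>
    if y b < y' b then some true else if y' b < y b then some false else none

/-- The pattern of a word of directions: `true` gives `+-` and `false` gives `-+`. -/
def pat (w : List Bool) : List Bool := w.flatMap fun s => [s, !s]

end Pool.Agent.BalPat
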