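import Pool.Agent.BalPat.Sets

set_option autoImplicit false

/-! # The reduction theorem -/

namespace Pool.Agent.BalPat

open Finset

variable {n L : ℕ} {I : Fin L → Finset (Fin n)}

/-- the weight of a set -/
noncomputable def wt (I : Fin L → Finset (Fin n)) (A : Finset (Fin n)) : ℝ :=
  ∏ b, (((I b ∩ A).card : ℕ) : ℝ)⁻¹

theorem wt_nonneg (A : Finset (Fin n)) : 0 ≤ wt I A :=
  prod_nonneg fun _ _ => inv_nonneg.2 (Nat.cast_nonneg _)

theorem card_QQ (A : Finset (Fin n)) : ((QQ I A).card : ℝ) = ∏ b, (((I b ∩ A).card : ℕ) : ℝ) := by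
  unfold QQ
  rw [Fintype.card_piFinset]
  push_cast
  rfl

theorem wt_mul_le (A : Finset (Fin n)) : ((QQ I A).card : ℝ) * wt I A ≤ 1 := by
  rw [card_QQ]
  unfold wt
  rw [← prod_mul_distrib]
  apply prod_le_one
  · intro b _
    positivity
  · intro b _
    by_cases h : ((I b ∩ A).card : ℝ) = 0
    · rw [h]; simp
    · rw [mul_inv_cancel₀ h]

theorem wt_mul_eq {A : Finset (Fin n)} (h : ∀ b, (I b ∩ A).Nonempty) :
    ((QQ I A).card : ℝ) * wt I A = 1 := by
  rw [card_QQ]
  unfold wt
  rw [← prod_mul_distrib]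
  apply prod_eq_one
  intro b _
  rw [mul_inv_cancel₀]
  have := card_pos.2 (h b)
  positivity

/-- The good part of a pattern-free family is small. -/
theorem good_part (hI : Blocks I) {l m k : ℕ} (hl : ∀ b, (I b).card = l) {w : List Bool} {ε : ℝ}
    (hε : 0 ≤ ε)
    (hprod : ∀ q : Fin L → ℕ, (∀ b, m ≤ q b) → (∀ b, q b ≤ l) → ∀ S : Finset (Fin L → ℕ),
      (∀ y ∈ S, ∀ b, y b < q b) → (∀ y ∈ S, ∀ y' ∈ S, hopWord y y' ≠ w) →
      (S.card : ℝ) ≤ ε * ∏ b, (q b : ℝ))
    (F : Finset (Finset (Fin n))) (hFk : ∀ A ∈ F, A.card = k) (hF : PatternFree F (pat w))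
    (hne : ∀ A ∈ F, ∀ b, (I b ∩ A).Nonempty) (hm : ∀ A ∈ F, ∀ b, m ≤ (I b \ A).card + 1) :
    (F.card : ℝ) ≤ ε * (n.choose k : ℝ) := by
  classical
  let 𝒞 : Finset (Finset (Fin n)) :=
    univ.filter fun C => C.card + L = k ∧ ∀ b, m ≤ (I b \ C).card
  -- first double counting
  have h1 := swap_sum (I := I) (fun _ A => if A ∈ F then wt I A else 0)
  have h2 : ∑ A : Finset (Fin n), ∑ p ∈ QQ I A, (if A ∈ F then wt I A else 0) = (F.card : ℝ) := by
    have h3 : ∀ A : Finset (Fin n), ∑ p ∈ QQ I A, (if A ∈ F then wt I A else 0) =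
        if A ∈ F then 1 else 0 := by
      intro A
      rw [sum_const, nsmul_eq_mul]
      split
      · rename_i hA
        exact wt_mul_eq (hne A hA)
      · rw [mul_zero]
    rw [sum_congr rfl fun A _ => h3 A, ← sum_filter, sum_const, nsmul_eq_mul, mul_one]
    congr 2
    ext A
    simp
  rw [h2] at h1
  -- second double counting
  have h4 := swap_sum (I := I) (fun C A => if C ∈ 𝒞 then wt I A else 0)
  have h5 : ∑ A : Finset (Fin n), ∑ p ∈ QQ I A, (if A \ im p ∈ 𝒞 then wt I A else 0) ≤
      (n.choose k : ℝ) := by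
    have h6 : ∀ A : Finset (Fin n), ∑ p ∈ QQ I A, (if A \ im p ∈ 𝒞 then wt I A else 0) ≤
        if A.card = k then 1 else 0 := by
      intro A
      by_cases hA : A.card = k
      · rw [if_pos hA]
        refine le_trans (sum_le_sum (g := fun _ => wt I A) ?_) ?_
        · intro p _
          split
          · exact le_rfl
          · exact wt_nonneg A
        · rw [sum_const, nsmul_eq_mul]
          exact wt_mul_le A
      · rw [if_neg hA]
        apply le_of_eq
        apply sum_eq_zero
        intro p hp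
        rw [if_neg]
        intro hC
        rw [mem_filter] at hC
        apply hA
        have hpR : p ∈ RR I (A \ im p) := by
          rw [mem_RR]
          rw [mem_QQ] at hp
          refine fun b => ⟨(hp b).1, ?_⟩
          rw [mem_sdiff]
          exact fun hh => hh.2 (im_mem p b)
        have h7 := card_union_im hI hpR
        have h8 : (A \ im p) ∪ im p = A := by
          rw [mem_QQ] at hp
          apply sdiff_union_of_subset
          intro x hx
          obtain ⟨b, rfl⟩ := mem_im.1 hx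
          exact (hp b).2
        rw [h8] at h7
        rw [h7]
        exact hC.2.1
    refine (sum_le_sum fun A _ => h6 A).trans ?_
    rw [← sum_filter, sum_const, nsmul_eq_mul, mul_one]
    have h9 : (univ.filter fun A : Finset (Fin n) => A.card = k) = powersetCard k univ := by
      ext A
      simp [mem_powersetCard]
    rw [h9, card_powersetCard, card_univ, Fintype.card_fin]
  rw [← h4] at h5
  -- comparison
  have h6 : ∀ C : Finset (Fin n), ∑ p ∈ RR I C, (if C ∪ im p ∈ F then wt I (C ∪ im p) else 0) ≤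
      ε * ∑ p ∈ RR I C, (if C ∈ 𝒞 then wt I (C ∪ im p) else 0) := by
    intro C
    let W : ℝ := ∏ b, (((I b ∩ C).card + 1 : ℕ) : ℝ)⁻¹
    have hW : ∀ p ∈ RR I C, wt I (C ∪ im p) = W := by
      intro p hp
      unfold wt
      apply prod_congr rfl
      intro b _
      rw [block_inter hI hp b]
    have hW0 : 0 ≤ W := prod_nonneg fun _ _ => inv_nonneg.2 (Nat.cast_nonneg _)
    by_cases hC : C ∈ 𝒞
    · have hC' := (mem_filter.1 hC).2
      have e1 : ∑ p ∈ RR I C, (if C ∪ im p ∈ F then wt I (C ∪ im p) else 0) =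
          (((RR I C).filter fun p => C ∪ im p ∈ F).card : ℝ) * W := by
        rw [← sum_filter, ← nsmul_eq_mul, ← sum_const]
        apply sum_congr rfl
        intro p hp
        exact hW p (mem_filter.1 hp).1
      have e2 : ∑ p ∈ RR I C, (if C ∈ 𝒞 then wt I (C ∪ im p) else 0) =
          ((RR I C).card : ℝ) * W := by
        rw [← nsmul_eq_mul, ← sum_const]
        apply sum_congr rfl
        intro p hp
        rw [if_pos hC, hW p hp]
      rw [e1, e2, ← mul_assoc]
      apply mul_le_mul_of_nonneg_right _ hW0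
      -- apply the product theorem
      let q : Fin L → ℕ := fun b => (I b \ C).card
      let S : Finset (Fin L → ℕ) := ((RR I C).filter fun p => C ∪ im p ∈ F).image (rk I C)
      have hS : S.card = ((RR I C).filter fun p => C ∪ im p ∈ F).card := by
        apply card_image_of_injOn
        intro p hp p' hp' h
        exact rk_inj (mem_filter.1 hp).1 (mem_filter.1 hp').1 h
      have h7 := hprod q hC'.2 (fun b => by
        rw [← hl b]
        exact card_le_card sdiff_subset) S (by
          intro y hy b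
          obtain ⟨p, hp, rfl⟩ := mem_image.1 hy
          exact rk_lt (mem_filter.1 hp).1 b) (by
          intro y hy y' hy' hh
          obtain ⟨p, hp, rfl⟩ := mem_image.1 hy
          obtain ⟨p', hp', rfl⟩ := mem_image.1 hy'
          have h8 := formed_eq hI (mem_filter.1 hp).1 (mem_filter.1 hp').1
          rw [hh] at h8
          exact hF _ (mem_filter.1 hp).2 _ (mem_filter.1 hp').2 h8)
      rw [hS] at h7
      have h8 : ((RR I C).card : ℝ) = ∏ b, (q b : ℝ) := by
        unfold RR
        rw [Fintype.card_piFinset]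
        push_cast
        rfl
      rw [h8]
      exact h7
    · have e1 : ∑ p ∈ RR I C, (if C ∪ im p ∈ F then wt I (C ∪ im p) else 0) = 0 := by
        apply sum_eq_zero
        intro p hp
        rw [if_neg]
        intro hA
        apply hC
        rw [mem_filter]
        refine ⟨mem_univ _, ?_, ?_⟩
        · rw [← card_union_im hI hp]
          exact hFk _ hA
        · intro b
          have h7 := hm _ hA b
          have h8 := card_sdiff_add_card_inter (I b) (C ∪ im p)
          have h9 := card_sdiff_add_card_inter (I b) C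
          have h10 := block_inter hI hp b
          omega
      rw [e1]
      apply mul_nonneg hε
      apply sum_nonneg
      intro p _
      split
      · exact wt_nonneg _
      · exact le_rfl
  rw [← h1]
  refine (sum_le_sum fun C _ => h6 C).trans ?_
  rw [← mul_sum]
  exact mul_le_mul_of_nonneg_left h5 hε

/-! ### Bad sets -/

theorem sum_choose_le (l m : ℕ) (hl : 0 < l) : ∑ j ∈ range m, l.choose j ≤ (l + 1) ^ m := by
  induction m with
  | zero => simp
  | succ m ih =>
    rw [sum_range_succ, pow_succ, mul_add, mul_one]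
    have h1 : l.choose m ≤ l ^ m := Nat.choose_le_pow l m
    have h2 : l ^ m ≤ (l + 1) ^ m * l :=
      calc l ^ m ≤ (l + 1) ^ m := Nat.pow_le_pow_left (Nat.le_succ l) m
        _ ≤ (l + 1) ^ m * l := Nat.le_mul_of_pos_right _ hl
    omega

theorem bad_le (J : Finset (Fin n)) {l m : ℕ} (hl : 0 < l) (hJ : J.card = l) :
    (univ.filter fun A : Finset (Fin n) => ¬ ((J ∩ A).Nonempty ∧ m ≤ (J \ A).card + 1)).card ≤
      2 ^ (n - l) * (1 + (l + 1) ^ m) := by
  classical
  have hJc : (univ \ J).card = n - l := by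
    rw [card_sdiff_of_subset (subset_univ _), card_univ, Fintype.card_fin, hJ]
  have h1 : (univ.filter fun A : Finset (Fin n) =>
      ¬ ((J ∩ A).Nonempty ∧ m ≤ (J \ A).card + 1)) ⊆
      (univ \ J).powerset ∪ (univ.filter fun A : Finset (Fin n) => (J \ A).card < m) := by
    intro A hA
    rw [mem_filter] at hA
    rw [mem_union, mem_powerset, mem_filter]
    by_cases h : (J ∩ A).Nonempty
    · right
      have h2 : ¬ m ≤ (J \ A).card + 1 := fun h3 => hA.2 ⟨h, h3⟩
      exact ⟨mem_univ _, by omega⟩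
    · left
      rw [not_nonempty_iff_eq_empty] at h
      intro x hx
      rw [mem_sdiff]
      refine ⟨mem_univ _, fun hxJ => ?_⟩
      have : x ∈ J ∩ A := mem_inter.2 ⟨hxJ, hx⟩
      rw [h] at this
      exact notMem_empty _ this
  have h2 : (univ.filter fun A : Finset (Fin n) => (J \ A).card < m).card ≤
      2 ^ (n - l) * (l + 1) ^ m := by
    have h3 : (univ.filter fun A : Finset (Fin n) => (J \ A).card < m).card ≤
        ((univ \ J).powerset ×ˢ ((range m).biUnion fun j => powersetCard j J)).card := by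
      apply card_le_card_of_injOn (fun A => (A \ J, J \ A))
      · intro A hA
        rw [mem_coe, mem_filter] at hA
        rw [mem_coe, mem_product, mem_powerset, mem_biUnion]
        refine ⟨sdiff_subset_sdiff (subset_univ _) le_rfl, (J \ A).card, mem_range.2 hA.2, ?_⟩
        rw [mem_powersetCard]
        exact ⟨sdiff_subset, rfl⟩
      · intro A _ B _ h
        simp only [Prod.mk.injEq] at h
        ext x
        have h4 := Finset.ext_iff.1 h.1 x
        have h5 := Finset.ext_iff.1 h.2 x
        simp only [mem_sdiff] at h4 h5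
        tauto
    refine h3.trans ?_
    rw [card_product, card_powerset, hJc]
    apply Nat.mul_le_mul_left
    refine card_biUnion_le.trans ?_
    refine le_trans (le_of_eq ?_) (sum_choose_le l m hl)
    apply sum_congr rfl
    intro j _
    rw [card_powersetCard, hJ]
  refine (card_le_card h1).trans ((card_union_le _ _).trans ?_)
  rw [card_powerset, hJc, mul_add, mul_one]
  exact Nat.add_le_add_left h2 _

theorem family_bound (hI : Blocks I) {l m k : ℕ} (hl0 : 0 < l) (hl : ∀ b, (I b).card = l)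
    {w : List Bool} {ε : ℝ} (hε : 0 ≤ ε)
    (hprod : ∀ q : Fin L → ℕ, (∀ b, m ≤ q b) → (∀ b, q b ≤ l) → ∀ S : Finset (Fin L → ℕ),
      (∀ y ∈ S, ∀ b, y b < q b) → (∀ y ∈ S, ∀ y' ∈ S, hopWord y y' ≠ w) →
      (S.card : ℝ) ≤ ε * ∏ b, (q b : ℝ))
    (F : Finset (Finset (Fin n))) (hFk : ∀ A ∈ F, A.card = k) (hF : PatternFree F (pat w)) :
    (F.card : ℝ) ≤ ε * (n.choose k : ℝ) + L * (2 ^ (n - l) * (1 + (l + 1) ^ m)) := by
  classical
  let F₀ := F.filter fun A => ∀ b, (I b ∩ A).Nonempty ∧ m ≤ (I b \ A).card + 1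
  let F₁ := F.filter fun A => ¬ ∀ b, (I b ∩ A).Nonempty ∧ m ≤ (I b \ A).card + 1
  have h0 : F.card = F₀.card + F₁.card := (card_filter_add_card_filter_not _).symm
  have h1 : (F₀.card : ℝ) ≤ ε * (n.choose k : ℝ) := by
    apply good_part hI hl hε hprod F₀
    · intro A hA
      exact hFk A (mem_filter.1 hA).1
    · intro A hA B hB
      exact hF A (mem_filter.1 hA).1 B (mem_filter.1 hB).1
    · intro A hA b
      exact ((mem_filter.1 hA).2 b).1
    · intro A hA b
      exact ((mem_filter.1 hA).2 b).2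
  have h2 : F₁.card ≤ L * (2 ^ (n - l) * (1 + (l + 1) ^ m)) := by
    have h3 : F₁ ⊆ (univ : Finset (Fin L)).biUnion fun b =>
        univ.filter fun A : Finset (Fin n) => ¬ ((I b ∩ A).Nonempty ∧ m ≤ (I b \ A).card + 1) := by
      intro A hA
      have h4 := (mem_filter.1 hA).2
      push Not at h4
      obtain ⟨b, hb⟩ := h4
      rw [mem_biUnion]
      refine ⟨b, mem_univ _, ?_⟩
      rw [mem_filter]
      exact ⟨mem_univ _, fun hh => absurd hh.2 (not_le.2 (hb hh.1))⟩
    refine (card_le_card h3).trans (card_biUnion_le.trans ?_)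
    refine (sum_le_card_nsmul _ _ _ fun b _ => bad_le (I b) hl0 (hl b)).trans ?_
    rw [card_univ, Fintype.card_fin, smul_eq_mul]
  have h3 : (F₁.card : ℝ) ≤ L * (2 ^ (n - l) * (1 + (l + 1) ^ m)) := by exact_mod_cast h2
  rw [h0]
  push_cast
  linarith

/-- the blocks of `Fin n` of length `l` -/
def blocks (n L l : ℕ) (b : Fin L) : Finset (Fin n) :=
  univ.filter fun x => (x : ℕ) / l = b

theorem blocks_ordered (n L l : ℕ) : Blocks (blocks n L l) := by
  intro b b' hbb x hx x' hx'
  unfold blocks at hx hx'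
  rw [mem_filter] at hx hx'
  by_contra hcon
  push Not at hcon
  have h1 : (x' : ℕ) / l ≤ (x : ℕ) / l := Nat.div_le_div_right hcon
  rw [hx.2, hx'.2] at h1
  exact absurd hbb (not_lt.2 h1)

theorem card_blocks {n L l : ℕ} (hl : 0 < l) (hn : L * l = n) (b : Fin L) :
    (blocks n L l b).card = l := by
  have h1 : (blocks n L l b).map Fin.valEmbedding = Ico ((b : ℕ) * l) ((b : ℕ) * l + l) := by
    ext x
    simp only [mem_map, Fin.valEmbedding_apply, mem_Ico]
    unfold blocks
    constructor
    · rintro ⟨x, hx, rfl⟩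
      rw [mem_filter] at hx
      rw [← hx.2]
      exact ⟨Nat.div_mul_le_self _ _, Nat.lt_div_mul_add hl⟩
    · rintro ⟨h1, h2⟩
      have h3 : ((b : ℕ) + 1) * l ≤ L * l := Nat.mul_le_mul_right l b.2
      have hx : x < n := by
        rw [add_mul, one_mul] at h3
        omega
      refine ⟨⟨x, hx⟩, ?_, rfl⟩
      rw [mem_filter]
      refine ⟨mem_univ _, ?_⟩
      have h4 : x < ((b : ℕ) + 1) * l := by
        rw [add_mul, one_mul]
        exact h2
      exact Nat.div_eq_of_lt_le h1 h4
  rw [← card_map Fin.valEmbedding, h1, Nat.card_Ico]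
  omega

theorem density_le {n k : ℕ} {P : List Bool} {c : ℝ} (hk : k ≤ n)
    (h : ∀ F : Finset (Finset (Fin n)), (∀ A ∈ F, A.card = k) → PatternFree F P →
      (F.card : ℝ) ≤ c * (n.choose k : ℝ)) : density n k P ≤ c := by
  unfold density
  have hpos : (0 : ℝ) < (n.choose k : ℝ) := by
    exact_mod_cast Nat.choose_pos hk
  rw [div_le_iff₀ hpos]
  have h1 : maxFree n k P ∈ {s | ∃ F : Finset (Finset (Fin n)), (∀ A ∈ F, A.card = k) ∧
      PatternFree F P ∧ F.card = s} := by
    apply Nat.sSup_mem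
    · exact ⟨0, ∅, by simp, by intro A hA; simp at hA, card_empty⟩
    · refine ⟨Fintype.card (Finset (Fin n)), ?_⟩
      rintro s ⟨F, -, -, rfl⟩
      exact card_le_univ F
  obtain ⟨F, h2, h3, h4⟩ := h1
  rw [← h4]
  exact h F h2 h3

/-- (E) reduction from the middle layer to the product space -/
theorem reduction (L l m k : ℕ) (w : List Bool) (ε : ℝ) (hε : 0 ≤ ε) (hk : 0 < k)
    (hn : L * l = 2 * k)
    (hprod : ∀ q : Fin L → ℕ, (∀ b, m ≤ q b) → (∀ b, q b ≤ l) → ∀ S : Finset (Fin L → ℕ),
      (∀ y ∈ S, ∀ b, y b < q b) → (∀ y ∈ S, ∀ y' ∈ S, hopWord y y' ≠ w) →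
      (S.card : ℝ) ≤ ε * ∏ b, (q b : ℝ)) :
    density (2 * k) k (pat w) ≤ ε + 2 * k * L * (1 + (l + 1) ^ m) / 2 ^ l := by
  have hl : 0 < l := by
    rcases Nat.eq_zero_or_pos l with h | h
    · rw [h, mul_zero] at hn
      omega
    · exact h
  have hL : 0 < L := by
    rcases Nat.eq_zero_or_pos L with h | h
    · rw [h, zero_mul] at hn
      omega
    · exact h
  have hle : l ≤ 2 * k := by
    rw [← hn]
    exact Nat.le_mul_of_pos_left l hL
  apply density_le (by omega)
  intro F hFk hF
  have h1 := family_bound (blocks_ordered (2 * k) L l) hl (card_blocks hl hn) hε hprod F hFk hF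
  refine h1.trans ?_
  rw [add_mul]
  apply add_le_add le_rfl
  have h2 : (4 : ℝ) ^ k ≤ 2 * k * ((2 * k).choose k : ℝ) := by
    have := Nat.four_pow_le_two_mul_self_mul_centralBinom k hk
    rw [Nat.centralBinom_eq_two_mul_choose] at this
    exact_mod_cast this
  have h3 : (2 : ℝ) ^ (2 * k - l) = 4 ^ k / 2 ^ l := by
    rw [eq_div_iff (by positivity), ← pow_add, Nat.sub_add_cancel hle, pow_mul]
    norm_num
  rw [h3]
  have h4 : (0 : ℝ) ≤ L * (1 + (l + 1) ^ m) / 2 ^ l := by positivity
  calc (L : ℝ) * (4 ^ k / 2 ^ l * (1 + (l + 1) ^ m))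
      = 4 ^ k * (L * (1 + (l + 1) ^ m) / 2 ^ l) := by ring
    _ ≤ (2 * k * ((2 * k).choose k : ℝ)) * (L * (1 + (l + 1) ^ m) / 2 ^ l) :=
        mul_le_mul_of_nonneg_right h2 h4
    _ = 2 * k * L * (1 + (l + 1) ^ m) / 2 ^ l * ((2 * k).choose k : ℝ) := by ring

/-- from arbitrarily large powers to a sequence -/
theorem final_of_powers (h : ∀ G n₀ : ℕ, ∃ k : ℕ, n₀ ≤ k ∧ ∃ P : List Bool, Balanced P ∧
      density (2 * k) k P ≤ ((2 * k : ℕ) : ℝ) ^ (-(G : ℝ))) :
    ∃ (n : ℕ → ℕ) (P : ℕ → List Bool) (g : ℕ → ℝ), StrictMono n ∧ (∀ k, Even (n k)) ∧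
      (∀ k, Balanced (P k)) ∧ Filter.Tendsto g Filter.atTop Filter.atTop ∧
      ∀ k, density (n k) (n k / 2) (P k) ≤ ((n k : ℕ) : ℝ) ^ (-(g k)) := by
  choose K hK P hP hd using h
  let κ : ℕ → ℕ := fun i => Nat.rec (K 0 0) (fun i prev => K (i + 1) (prev + 1)) i
  let s : ℕ → ℕ := fun i => Nat.rec 0 (fun i _ => κ i + 1) i
  have hκ : ∀ i, κ i = K i (s i) := by
    intro i
    cases i with
    | zero => rfl
    | succ i => rfl
  refine ⟨fun i => 2 * κ i, fun i => P i (s i), fun i => (i : ℝ), ?_, ?_, ?_, ?_, ?_⟩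
  · apply strictMono_nat_of_lt_succ
    intro i
    have h1 : κ i + 1 ≤ κ (i + 1) := hK (i + 1) (κ i + 1)
    show 2 * κ i < 2 * κ (i + 1)
    omega
  · intro i
    exact even_two_mul _
  · intro i
    exact hP i (s i)
  · exact tendsto_natCast_atTop_atTop
  · intro i
    have h1 := hd i (s i)
    rw [← hκ i] at h1
    show density (2 * κ i) (2 * κ i / 2) (P i (s i)) ≤ _
    rw [Nat.mul_div_cancel_left _ (by norm_num)]
    exact h1

end Pool.Agent.BalPat
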