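import Pool.Agent.BalPat.Defs

set_option autoImplicit false

/-! # Reduction from the middle layer to a product space -/

namespace Pool.Agent.BalPat

open Finset

section Words

variable {L : ℕ}

theorem flatMap_filterMap' {α β γ : Type*} (φ : α → Option β) (g : β → List γ) (bs : List α) :
    (bs.filterMap φ).flatMap g = bs.flatMap fun b => (φ b).elim [] g := by
  induction bs with
  | nil => rfl
  | cons b bs ih =>
    rw [List.flatMap_cons, List.filterMap_cons]
    cases h : φ b with
    | none => simp [ih]
    | some s => simp [ih]

theorem pat_hopWord (y y' : Fin L → ℕ) : pat (hopWord y y') =
    (List.finRange L).flatMap fun b =>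
      if y b < y' b then [true, false] else if y' b < y b then [false, true] else [] := by
  unfold pat hopWord
  rw [flatMap_filterMap']
  congr 1
  funext b
  split
  · rfl
  · split
    · rfl
    · rfl

/-- a criterion for `hopWord y y' = w` -/
theorem hopWord_eq (y y' : Fin L → ℕ) (w : List Bool) (e : Fin w.length → Fin L)
    (he : StrictMono e) (hout : ∀ b, b ∉ Set.range e → y b = y' b)
    (hup : ∀ i, w[i] = true → y (e i) < y' (e i)) (hdown : ∀ i, w[i] = false → y' (e i) < y (e i)) :
    hopWord y y' = w := by
  classical
  have h1 : hopWord y y' = ((List.finRange L).filter fun b => b ∈ Set.range e).filterMap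
      (fun b => if y b < y' b then some true else if y' b < y b then some false else none) := by
    unfold hopWord
    rw [List.filterMap_filter]
    congr 1
    funext b
    by_cases hb : b ∈ Set.range e
    · simp [hb]
    · have := hout b hb
      simp [hb, this]
  have h2 : ((List.finRange L).filter fun b => b ∈ Set.range e) = (List.finRange w.length).map e := by
    apply List.Perm.eq_of_pairwise (le := (· < ·))
    · intro a b _ _ h1 h2
      exact absurd h1 (lt_asymm h2)
    · exact (List.pairwise_lt_finRange L).filter _
    · rw [List.pairwise_map]
      exact (List.pairwise_lt_finRange _).imp fun h => he h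
    · rw [List.perm_ext_iff_of_nodup]
      · intro b
        simp
      · exact (List.nodup_finRange L).filter _
      · exact (List.nodup_finRange _).map he.injective
  rw [h1, h2, List.filterMap_map]
  have h3 : ((fun b => if y b < y' b then some true else if y' b < y b then some false else none) ∘ e)
      = fun i : Fin w.length => some w[i] := by
    funext i
    simp only [Function.comp_apply]
    cases hw : w[i] with
    | true => rw [if_pos (hup i hw)]
    | false =>
      have := hdown i hw
      rw [if_neg (by omega), if_pos this]
  rw [h3]
  have h4 : (List.finRange w.length).filterMap (fun i => some w[i]) =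
      (List.finRange w.length).map (fun i => w[i]) := by
    rw [← List.filterMap_eq_map]
    rfl
  rw [h4]
  exact List.map_getElem_finRange w

end Words

end Pool.Agent.BalPat
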