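import Pool.Agent.BalPat.Reduction

set_option autoImplicit false

/-! # Transversals of blocks -/

namespace Pool.Agent.BalPat

open Finset

variable {n L : ℕ}

/-- the image of a choice function -/
def im (p : Fin L → Fin n) : Finset (Fin n) := univ.image p

/-- choices outside `C` -/
def RR (I : Fin L → Finset (Fin n)) (C : Finset (Fin n)) : Finset (Fin L → Fin n) :=
  Fintype.piFinset fun b => I b \ C

/-- choices inside `A` -/
def QQ (I : Fin L → Finset (Fin n)) (A : Finset (Fin n)) : Finset (Fin L → Fin n) :=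
  Fintype.piFinset fun b => I b ∩ A

/-- the blocks are ordered -/
def Blocks (I : Fin L → Finset (Fin n)) : Prop :=
  ∀ b b', b < b' → ∀ x ∈ I b, ∀ x' ∈ I b', x < x'

variable {I : Fin L → Finset (Fin n)}

theorem mem_RR {C : Finset (Fin n)} {p : Fin L → Fin n} :
    p ∈ RR I C ↔ ∀ b, p b ∈ I b ∧ p b ∉ C := by
  unfold RR
  simp [Fintype.mem_piFinset]

theorem mem_QQ {A : Finset (Fin n)} {p : Fin L → Fin n} :
    p ∈ QQ I A ↔ ∀ b, p b ∈ I b ∧ p b ∈ A := by
  unfold QQ
  simp [Fintype.mem_piFinset]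

theorem mem_im {p : Fin L → Fin n} {x : Fin n} : x ∈ im p ↔ ∃ b, p b = x := by
  unfold im
  simp

theorem im_mem (p : Fin L → Fin n) (b : Fin L) : p b ∈ im p := mem_im.2 ⟨b, rfl⟩

theorem swap_sum (G : Finset (Fin n) → Finset (Fin n) → ℝ) :
    ∑ C : Finset (Fin n), ∑ p ∈ RR I C, G C (C ∪ im p) =
      ∑ A : Finset (Fin n), ∑ p ∈ QQ I A, G (A \ im p) A := by
  rw [Finset.sum_sigma', Finset.sum_sigma']
  have h1 : ∀ (C : Finset (Fin n)) (p : Fin L → Fin n), p ∈ RR I C → (C ∪ im p) \ im p = C := by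
    intro C p hp
    rw [mem_RR] at hp
    rw [union_sdiff_right, Finset.sdiff_eq_self_iff_disjoint, Finset.disjoint_left]
    rintro x hx hx'
    obtain ⟨b, rfl⟩ := mem_im.1 hx'
    exact (hp b).2 hx
  have h2 : ∀ (A : Finset (Fin n)) (p : Fin L → Fin n), p ∈ QQ I A → (A \ im p) ∪ im p = A := by
    intro A p hp
    rw [mem_QQ] at hp
    apply sdiff_union_of_subset
    intro x hx
    obtain ⟨b, rfl⟩ := mem_im.1 hx
    exact (hp b).2
  refine Finset.sum_bij' (fun x _ => ⟨x.1 ∪ im x.2, x.2⟩) (fun x _ => ⟨x.1 \ im x.2, x.2⟩)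
    ?_ ?_ ?_ ?_ ?_
  · rintro ⟨C, p⟩ h
    simp only [mem_sigma, mem_univ, true_and] at h ⊢
    rw [mem_QQ]
    rw [mem_RR] at h
    exact fun b => ⟨(h b).1, mem_union_right _ (im_mem p b)⟩
  · rintro ⟨A, p⟩ h
    simp only [mem_sigma, mem_univ, true_and] at h ⊢
    rw [mem_RR]
    rw [mem_QQ] at h
    refine fun b => ⟨(h b).1, ?_⟩
    rw [mem_sdiff]
    exact fun hh => hh.2 (im_mem p b)
  · rintro ⟨C, p⟩ h
    simp only [mem_sigma, mem_univ, true_and] at h
    simp only [h1 C p h]
  · rintro ⟨A, p⟩ h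
    simp only [mem_sigma, mem_univ, true_and] at h
    simp only [h2 A p h]
  · rintro ⟨C, p⟩ h
    simp only [mem_sigma, mem_univ, true_and] at h
    simp only [h1 C p h]

theorem block_inter (hI : Blocks I) {C : Finset (Fin n)} {p : Fin L → Fin n} (hp : p ∈ RR I C)
    (b : Fin L) : (I b ∩ (C ∪ im p)).card = (I b ∩ C).card + 1 := by
  rw [mem_RR] at hp
  have h1 : I b ∩ (C ∪ im p) = insert (p b) (I b ∩ C) := by
    ext x
    simp only [mem_inter, mem_union, mem_insert]
    constructor
    · rintro ⟨hx, hx' | hx'⟩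
      · exact Or.inr ⟨hx, hx'⟩
      · obtain ⟨b', rfl⟩ := mem_im.1 hx'
        left
        rcases lt_trichotomy b b' with h | h | h
        · exact absurd (hI b b' h _ hx _ (hp b').1) (lt_irrefl _)
        · rw [h]
        · exact absurd (hI b' b h _ (hp b').1 _ hx) (lt_irrefl _)
    · rintro (rfl | ⟨hx, hx'⟩)
      · exact ⟨(hp b).1, Or.inr (im_mem p b)⟩
      · exact ⟨hx, Or.inl hx'⟩
  rw [h1, card_insert_of_notMem]
  intro h
  exact (hp b).2 (mem_inter.1 h).2

theorem card_union_im (hI : Blocks I) {C : Finset (Fin n)} {p : Fin L → Fin n}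
    (hp : p ∈ RR I C) : (C ∪ im p).card = C.card + L := by
  rw [mem_RR] at hp
  rw [card_union_of_disjoint]
  · congr 1
    unfold im
    rw [card_image_of_injective, card_univ, Fintype.card_fin]
    intro b b' hbb
    rcases lt_trichotomy b b' with h | h | h
    · exact absurd (hI b b' h _ (hp b).1 _ (hp b').1) (by rw [hbb]; exact lt_irrefl _)
    · exact h
    · exact absurd (hI b' b h _ (hp b').1 _ (hp b).1) (by rw [hbb]; exact lt_irrefl _)
  · rw [Finset.disjoint_left]
    rintro x hx hx'
    obtain ⟨b, rfl⟩ := mem_im.1 hx'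
    exact (hp b).2 hx

/-! ### Ranks -/

/-- the ranks of the chosen elements -/
def rk (I : Fin L → Finset (Fin n)) (C : Finset (Fin n)) (p : Fin L → Fin n) (b : Fin L) : ℕ :=
  ((I b \ C).filter (· < p b)).card

theorem rk_lt_iff {C : Finset (Fin n)} {p p' : Fin L → Fin n} (hp : p ∈ RR I C)
    (b : Fin L) : rk I C p b < rk I C p' b ↔ p b < p' b := by
  rw [mem_RR] at hp
  constructor
  · intro h
    by_contra hcon
    push Not at hcon
    refine absurd h (not_lt.2 (card_le_card ?_))
    intro x hx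
    rw [mem_filter] at hx ⊢
    exact ⟨hx.1, lt_of_lt_of_le hx.2 hcon⟩
  · intro h
    apply card_lt_card
    rw [Finset.ssubset_iff_of_subset]
    · refine ⟨p b, ?_, ?_⟩
      · rw [mem_filter, mem_sdiff]
        exact ⟨hp b, h⟩
      · rw [mem_filter]
        exact fun hh => lt_irrefl _ hh.2
    · intro x hx
      rw [mem_filter] at hx ⊢
      exact ⟨hx.1, hx.2.trans h⟩

theorem rk_lt {C : Finset (Fin n)} {p : Fin L → Fin n} (hp : p ∈ RR I C) (b : Fin L) :
    rk I C p b < (I b \ C).card := by
  rw [mem_RR] at hp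
  apply card_lt_card
  rw [Finset.ssubset_iff_of_subset (filter_subset _ _)]
  refine ⟨p b, mem_sdiff.2 (hp b), ?_⟩
  rw [mem_filter]
  exact fun hh => lt_irrefl _ hh.2

theorem rk_inj {C : Finset (Fin n)} {p p' : Fin L → Fin n} (hp : p ∈ RR I C) (hp' : p' ∈ RR I C)
    (h : rk I C p = rk I C p') : p = p' := by
  funext b
  have h1 := rk_lt_iff (p' := p') hp b
  have h2 := rk_lt_iff (p' := p) hp' b
  rw [h] at h1
  rw [h] at h2
  rcases lt_trichotomy (p b) (p' b) with h3 | h3 | h3
  · exact absurd (h1.2 h3) (lt_irrefl _)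
  · exact h3
  · exact absurd (h2.2 h3) (lt_irrefl _)

/-! ### The word formed by two transversals -/

/-- the changed elements of a block -/
def prs (p p' : Fin L → Fin n) (b : Fin L) : List (Fin n) :=
  if p b < p' b then [p b, p' b] else if p' b < p b then [p' b, p b] else []

theorem mem_prs {p p' : Fin L → Fin n} {b : Fin L} {x : Fin n} :
    x ∈ prs p p' b ↔ p b ≠ p' b ∧ (x = p b ∨ x = p' b) := by
  unfold prs
  split
  · rename_i h
    simp [h.ne]
  · split
    · rename_i h
      simp [h.ne', or_comm]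
    · rename_i h h'
      have : p b = p' b := le_antisymm (not_lt.1 h') (not_lt.1 h)
      simp [this]

theorem formed_eq (hI : Blocks I) {C : Finset (Fin n)} {p p' : Fin L → Fin n}
    (hp : p ∈ RR I C) (hp' : p' ∈ RR I C) :
    formed (C ∪ im p) (C ∪ im p') = pat (hopWord (rk I C p) (rk I C p')) := by
  have hpm := mem_RR.1 hp
  have hpm' := mem_RR.1 hp'
  have hsep : ∀ b b', b ≠ b' → ∀ x ∈ I b, ∀ x' ∈ I b', x ≠ x' := by
    intro b b' hbb x hx x' hx' h
    rcases lt_or_gt_of_ne hbb with h1 | h1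
    · exact absurd (hI b b' h1 _ hx _ hx') (by rw [h]; exact lt_irrefl _)
    · exact absurd (hI b' b h1 _ hx' _ hx) (by rw [h]; exact lt_irrefl _)
  have hnot : ∀ b, p b ≠ p' b → p' b ∉ C ∪ im p := by
    intro b hb h
    rcases mem_union.1 h with h | h
    · exact (hpm' b).2 h
    · obtain ⟨b', hb'⟩ := mem_im.1 h
      by_cases hbb : b' = b
      · rw [hbb] at hb'
        exact hb hb'
      · exact hsep b' b hbb _ (hpm b').1 _ (hpm' b).1 hb'
  have hnot' : ∀ b, p b ≠ p' b → p b ∉ C ∪ im p' := by
    intro b hb h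
    rcases mem_union.1 h with h | h
    · exact (hpm b).2 h
    · obtain ⟨b', hb'⟩ := mem_im.1 h
      by_cases hbb : b' = b
      · rw [hbb] at hb'
        exact hb hb'.symm
      · exact hsep b' b hbb _ (hpm' b').1 _ (hpm b).1 hb'
  -- the sorted symmetric difference
  set Lst := (List.finRange L).flatMap (prs p p') with hLst
  have hpair : Lst.Pairwise (· < ·) := by
    rw [hLst, List.pairwise_flatMap]
    refine ⟨?_, ?_⟩
    · intro b _
      unfold prs
      split
      · rename_i h
        simp [h]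
      · split
        · rename_i h
          simp [h]
        · simp
    · refine (List.pairwise_lt_finRange L).imp ?_
      intro b b' hbb x hx x' hx'
      rw [mem_prs] at hx hx'
      apply hI b b' hbb
      · rcases hx.2 with h | h
        · rw [h]; exact (hpm b).1
        · rw [h]; exact (hpm' b).1
      · rcases hx'.2 with h | h
        · rw [h]; exact (hpm b').1
        · rw [h]; exact (hpm' b').1
  have hmem : ∀ x, x ∈ Lst ↔ x ∈ symmDiff (C ∪ im p) (C ∪ im p') := by
    intro x
    rw [hLst, List.mem_flatMap, Finset.mem_symmDiff]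
    constructor
    · rintro ⟨b, -, hb⟩
      rw [mem_prs] at hb
      obtain ⟨hne, h | h⟩ := hb
      · left
        rw [h]
        exact ⟨mem_union_right _ (im_mem p b), hnot' b hne⟩
      · right
        rw [h]
        exact ⟨mem_union_right _ (im_mem p' b), hnot b hne⟩
    · rintro (⟨h1, h2⟩ | ⟨h1, h2⟩)
      · rcases mem_union.1 h1 with h | h
        · exact absurd (mem_union_left _ h) h2
        · obtain ⟨b, rfl⟩ := mem_im.1 h
          refine ⟨b, List.mem_finRange b, mem_prs.2 ⟨?_, Or.inl rfl⟩⟩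
          intro hh
          apply h2
          rw [hh]
          exact mem_union_right _ (im_mem p' b)
      · rcases mem_union.1 h1 with h | h
        · exact absurd (mem_union_left _ h) h2
        · obtain ⟨b, rfl⟩ := mem_im.1 h
          refine ⟨b, List.mem_finRange b, mem_prs.2 ⟨?_, Or.inr rfl⟩⟩
          intro hh
          apply h2
          rw [← hh]
          exact mem_union_right _ (im_mem p b)
  have hsort : (symmDiff (C ∪ im p) (C ∪ im p')).sort (· ≤ ·) = Lst := by
    have h1 : symmDiff (C ∪ im p) (C ∪ im p') = Lst.toFinset := by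
      ext x
      rw [List.mem_toFinset, hmem]
    rw [h1]
    exact (List.toFinset_sort (· ≤ ·) (hpair.imp fun h => ne_of_lt h)).2
      (hpair.imp fun h => le_of_lt h)
  unfold formed
  rw [hsort, hLst, List.map_flatMap, pat_hopWord]
  apply List.flatMap_congr
  intro b _
  have hin : ∀ b, decide (p b ∈ C ∪ im p) = true := fun b =>
    decide_eq_true (mem_union_right _ (im_mem p b))
  by_cases h1 : p b < p' b
  · have h2 := (rk_lt_iff (p' := p') hp b).2 h1
    rw [if_pos h2]
    unfold prs
    rw [if_pos h1, List.map_cons, List.map_cons, List.map_nil, hin,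
      decide_eq_false (hnot b h1.ne)]
  · have h2 : ¬ rk I C p b < rk I C p' b := fun h => h1 ((rk_lt_iff hp b).1 h)
    rw [if_neg h2]
    by_cases h3 : p' b < p b
    · have h4 := (rk_lt_iff (p' := p) hp' b).2 h3
      rw [if_pos h4]
      unfold prs
      rw [if_neg h1, if_pos h3, List.map_cons, List.map_cons, List.map_nil, hin,
        decide_eq_false (hnot b h3.ne')]
    · have h4 : ¬ rk I C p' b < rk I C p b := fun h => h3 ((rk_lt_iff hp' b).1 h)
      rw [if_neg h4]
      unfold prs
      rw [if_neg h1, if_neg h3, List.map_nil]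

end Pool.Agent.BalPat
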